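import Pool.Agent.Results.MP_0b15c0_nt.SquareRootExceptions
import Pool.Agent.Y854.GM.Cum
import Pool.Agent.Y854.GM.Lim

/-!
# Small witnesses for the strong pseudoprimality test along the sequences `⌊α n ^ c⌋`

For `c > 2` and all `α > 0` outside a set of dimension at most `1/2 + 1/c`, all but finitely many of the numbers
`m = ⌊α n ^ c⌋` are prime or have a witness `1 < b ≤ 2 (log m)²`. For `1 < c ≤ 2` this holds for all but
`N ^ (1 - δ)` of the `n ≤ N`.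
-/

set_option autoImplicit false

namespace Pool.Agent.Results.MP_0b15c0_nt.ThinSequences

open Finset

/-- `n` fails the strong test for the base `b`: writing `n - 1 = 2 ^ j * d` with `d` odd, neither
`b ^ d = 1` nor `b ^ (2 ^ i * d) = -1` for some `i < j`, modulo `n`. -/
def IsWitness (n b : ℕ) : Prop :=
  ∀ j d : ℕ, n - 1 = 2 ^ j * d → Odd d →
    (b : ZMod n) ^ d ≠ 1 ∧ ∀ i : ℕ, i < j → (b : ZMod n) ^ (2 ^ i * d) ≠ -1

/-- `m ≥ 2` is prime or has a witness `1 < b ≤ 2 (log m) ^ A`. -/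
def Decided (A : ℝ) (m : ℕ) : Prop :=
  2 ≤ m ∧ (m.Prime ∨ ∃ b : ℕ, 1 < b ∧ (b : ℝ) ≤ 2 * (Real.log m) ^ A ∧ IsWitness m b)

/-- the numbers which are not decided -/
def Undecided (A : ℝ) : Set ℕ := {m : ℕ | ¬ Decided A m}

open Classical in
lemma count (A ε : ℝ) (hA : 2 ≤ A) (hε : 0 < ε) : ∃ C : ℝ, 0 ≤ C ∧ ∀ X : ℕ,
    (((Ioc 0 X).filter (fun m => m ∈ Undecided A)).card : ℝ) ≤ C * (X : ℝ) ^ (1 / A + ε) := by
  obtain ⟨K, hK⟩ := SquareRootExceptions.result A ε hA hε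
  have hA0 : 0 < A := by linarith
  refine ⟨|K| + 1, by positivity, fun X => ?_⟩
  rcases Nat.eq_zero_or_pos X with rfl | hX
  · simp only [Ioc_self, filter_empty, card_empty, Nat.cast_zero]
    positivity
  obtain ⟨hfin, hcard⟩ := hK X hX
  have hXp : (1 : ℝ) ≤ X := by exact_mod_cast hX
  have h1 : (((Ioc 0 X).filter (fun m => m ∈ Undecided A) : Finset ℕ) : Set ℕ) ⊆
      SquareRootExceptions.Exceptions A X ∪ {1} := by
    intro m hm
    rw [mem_coe, mem_filter, mem_Ioc] at hm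
    obtain ⟨⟨h1, h2⟩, h3⟩ := hm
    by_cases h4 : 2 ≤ m
    · left
      refine ⟨h2, h4, fun hp => h3 ⟨h4, Or.inl hp⟩, fun hw => h3 ⟨h4, Or.inr ?_⟩⟩
      obtain ⟨b, hb1, hb2, hb3⟩ := hw
      exact ⟨b, hb1, hb2, hb3⟩
    · right
      rw [Set.mem_singleton_iff]
      omega
  have h2 := Set.ncard_le_ncard h1 (hfin.union (Set.finite_singleton 1))
  rw [Set.ncard_coe_finset] at h2
  have h3 := h2.trans (Set.ncard_union_le _ _)
  rw [Set.ncard_singleton] at h3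
  have h4 : (((Ioc 0 X).filter (fun m => m ∈ Undecided A)).card : ℝ) ≤
      (SquareRootExceptions.Exceptions A X).ncard + 1 := by exact_mod_cast h3
  have h5 : (1 : ℝ) ≤ (X : ℝ) ^ (1 / A + ε) := Real.one_le_rpow hXp (by positivity)
  have h6 : K * (X : ℝ) ^ (1 / A + ε) ≤ |K| * (X : ℝ) ^ (1 / A + ε) :=
    mul_le_mul_of_nonneg_right (le_abs_self K) (by positivity)
  nlinarith

open Classical in
/-- **Small witnesses along the sequences `⌊α n ^ c⌋`.**
(1) Let `A ≥ 2` and `c > 1` with `1 / A + 1 / c < 1` (for `A = 2` any `c > 2`). For all `α > 0` outside a set of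
Hausdorff dimension at most `1 / A + 1 / c`, all but finitely many of the numbers `m = ⌊α n ^ c⌋` are prime or have
a witness `1 < b ≤ 2 (log m) ^ A`.
(2) For every `c > 1` and all `α > 0` outside a set of Hausdorff dimension less than one there is `δ > 0` such that
for all large `N` and all but at most `N ^ (1 - δ)` of the `n ≤ N` the number `m = ⌊α n ^ c⌋` is prime or has a
witness `1 < b ≤ 2 (log m) ^ 2`. -/
theorem result :
    (∀ A c : ℝ, 2 ≤ A → 1 < c → 1 / A + 1 / c < 1 → ∃ E : Set ℝ, dimH E ≤ ENNReal.ofReal (1 / A + 1 / c) ∧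
      ∀ α : ℝ, 0 < α → α ∉ E → ∃ n₀ : ℕ, ∀ n : ℕ, n₀ ≤ n → Decided A ⌊α * (n : ℝ) ^ c⌋₊) ∧
    (∀ c : ℝ, 1 < c → ∃ E : Set ℝ, dimH E < 1 ∧ ∀ α : ℝ, 0 < α → α ∉ E → ∃ δ : ℝ, 0 < δ ∧ δ < 1 ∧
      ∃ N₀ : ℕ, ∀ N : ℕ, N₀ ≤ N →
        (((Icc 1 N).filter (fun n : ℕ => ¬ Decided 2 ⌊α * (n : ℝ) ^ c⌋₊)).card : ℝ) ≤ (N : ℝ) ^ (1 - δ)) := by
  refine ⟨fun A c hA hc hAc => ?_, fun c hc => ?_⟩
  · have hA0 : 0 < A := by linarith
    have hc0 : 0 < c := by linarith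
    have hj : ∀ j : ℕ, ∃ E : Set ℝ, dimH E ≤ ENNReal.ofReal (1 / A + 1 / ((j : ℝ) + 1) + 1 / c) ∧
        ∀ α : ℝ, 0 < α → α ∉ E → ∃ n₀ : ℕ, ∀ n : ℕ, n₀ ≤ n → Decided A ⌊α * (n : ℝ) ^ c⌋₊ := by
      intro j
      obtain ⟨C, hC0, hC⟩ := count A (1 / ((j : ℝ) + 1)) hA (by positivity)
      obtain ⟨E, hE, h⟩ := Pool.Agent.Y854.GM.finite_in c (1 / A + 1 / ((j : ℝ) + 1)) hc (by positivity)
        (Undecided A) C hC0 hC
      refine ⟨E, hE, fun α hα hαE => ?_⟩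
      obtain ⟨n₀, hn⟩ := h α hα hαE
      refine ⟨n₀, fun n hn1 => ?_⟩
      by_contra hg
      exact (hn n hn1).2 hg
    choose E hE h using hj
    refine ⟨⋂ j, E j, ?_, fun α hα hαE => ?_⟩
    · apply ENNReal.le_of_forall_pos_le_add
      intro ε hε _
      have hε' : (0 : ℝ) < ε := by exact_mod_cast hε
      obtain ⟨j, hj⟩ := exists_nat_one_div_lt hε'
      refine (dimH_mono (Set.iInter_subset E j)).trans ((hE j).trans ?_)
      have e : ENNReal.ofReal (1 / A + 1 / c) + (ε : ENNReal) = ENNReal.ofReal (1 / A + 1 / c + ε) := by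
        rw [← ENNReal.ofReal_coe_nnreal, ← ENNReal.ofReal_add (by positivity) (by positivity)]
      rw [e]
      apply ENNReal.ofReal_le_ofReal
      linarith
    · rw [Set.mem_iInter] at hαE
      push Not at hαE
      obtain ⟨j, hj⟩ := hαE
      exact h j α hα hj
  · obtain ⟨C, hC0, hC⟩ := count 2 (1 / 4) le_rfl (by norm_num)
    obtain ⟨E, hE, h⟩ := Pool.Agent.Y854.GM.sets_pow c hc (fun _ : Unit => Undecided 2)
    refine ⟨E, hE, fun α hα hαE => ?_⟩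
    obtain ⟨δ, hδ, hδ1, N₀, hN⟩ := h α hα hαE () (1 / 4) C (by norm_num) ⟨0, fun X _ => by
      have h1 := hC X
      have e : (1 / 2 + 1 / 4 : ℝ) = 1 - 1 / 4 := by norm_num
      rw [e] at h1
      exact h1⟩
    refine ⟨δ, hδ, hδ1, N₀, fun N hNN => le_trans ?_ (hN N hNN)⟩
    have hsub : (Icc 1 N).filter (fun n : ℕ => ¬ Decided 2 ⌊α * (n : ℝ) ^ c⌋₊) ⊆
        (Icc 1 N).filter (fun n : ℕ => ⌊α * (n : ℝ) ^ c⌋₊ ∈ Undecided 2) := by
      intro n hn
      rw [mem_filter] at hn ⊢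
      exact hn
    exact_mod_cast card_le_card hsub

end Pool.Agent.Results.MP_0b15c0_nt.ThinSequences
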